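import Pool.Agent.helper59.BR.SpecH

/-!
# Row brh:HNL (MP_baa4d7_al): norms, all conjugates are divisible by `p ^ k`
-/

set_option autoImplicit false

namespace Pool.Agent.BR

open Pool.Agent.helper58.DC Pool.Agent.DI Pool.Agent.GR Pool.Agent.OB Pool.Agent.DR Pool.Agent.FI Pool.Agent.FI3 Pool.Agent.FI4 Pool.Agent.LE

theorem HNL_neg {M : Ideal (integralClosure ℤ ℂ)} {a : ℕ} {N : ℤ} {z : ℂ}
    (ha : N.natAbs = a) (hz : IntAt M ((N : ℂ) / z)) : IntAt M ((a : ℂ) / z) := by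
  rcases Int.natAbs_eq N with h | h
  · rw [ha] at h
    rw [h] at hz
    exact_mod_cast hz
  · rw [ha] at h
    rw [h] at hz
    have h2 := hz.neg
    rw [← neg_div] at h2
    push_cast at h2
    rw [neg_neg] at h2
    exact h2

theorem HNL_dvd {p : ℕ} {M : Ideal (integralClosure ℤ ℂ)} (hS : Setup p M) {a k : ℕ} (ha : a ≠ 0)
    (hz : IntAt M ((a : ℂ) / (p : ℂ) ^ k)) : p ^ k ∣ a := by
  have hp := hS.pr
  obtain ⟨e, m, hm, ham⟩ := Nat.exists_eq_pow_mul_and_not_dvd ha p hp.ne_one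
  by_contra hcon
  have hek : e < k := by
    by_contra hke
    push Not at hke
    exact hcon (ham ▸ (pow_dvd_pow p hke).trans (dvd_mul_right _ _))
  apply hm
  rw [← InM.natCast hS]
  have hpC := hS.p_ne
  have h1 : (m : ℂ) = ((a : ℂ) / (p : ℂ) ^ k) * (p : ℂ) ^ (k - e) := by
    rw [ham]
    push_cast
    have : (p : ℂ) ^ k = (p : ℂ) ^ e * (p : ℂ) ^ (k - e) := by
      rw [← pow_add]
      congr 1
      omega
    rw [this]
    have h2 : (p : ℂ) ^ e ≠ 0 := pow_ne_zero _ hpC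
    have h3 : (p : ℂ) ^ (k - e) ≠ 0 := pow_ne_zero _ hpC
    field_simp
  rw [h1]
  exact InM.mul_left hS hz (InM.pow hS (InM.prime_mem hS) (by omega))

theorem HNL (hNRC : NRC_stmt) : HNL_stmt := by
  classical
  intro p M hS n k hn P hμ
  have hcard : (primitiveRoots n ℂ).card = Nat.totient n := Complex.card_primitiveRoots n
  have hφ : 0 < Nat.totient n := Nat.totient_pos.2 hn
  obtain ⟨N, hN⟩ := hNRC n hn P
  have hp := hS.pr
  have hN0 : N ≠ 0 := by
    rintro rfl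
    rw [Int.cast_zero, Finset.prod_eq_zero_iff] at hN
    obtain ⟨μ, h1, h2⟩ := hN
    exact (hμ μ h1).1 h2
  have hint : IntAt M ((N : ℂ) / (p : ℂ) ^ (k * Nat.totient n)) := by
    have h1 := IntAt.prod hS (primitiveRoots n ℂ) fun μ hm => (hμ μ hm).2
    rw [Finset.prod_div_distrib, hN, Finset.prod_const, hcard, ← pow_mul] at h1
    exact h1
  have hdvd : p ^ (k * Nat.totient n) ∣ N.natAbs :=
    HNL_dvd hS (Int.natAbs_ne_zero.2 hN0) (HNL_neg rfl hint)
  have hle : p ^ (k * Nat.totient n) ≤ N.natAbs := Nat.le_of_dvd (Int.natAbs_pos.2 hN0) hdvd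
  have hprod : ∏ μ ∈ primitiveRoots n ℂ, ‖Polynomial.aeval μ P‖ = (N.natAbs : ℝ) := by
    rw [← norm_prod, hN, Complex.norm_intCast, Nat.cast_natAbs, Int.cast_abs]
  have hprod2 : ((p : ℝ) ^ k) ^ Nat.totient n ≤ ∏ μ ∈ primitiveRoots n ℂ, ‖Polynomial.aeval μ P‖ := by
    rw [hprod, ← pow_mul]
    exact_mod_cast hle
  have hφR : (0 : ℝ) < (Nat.totient n : ℝ) := by exact_mod_cast hφ
  have hag := Real.geom_mean_le_arith_mean_weighted (primitiveRoots n ℂ) (fun _ => (Nat.totient n : ℝ)⁻¹)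
    (fun μ => ‖Polynomial.aeval μ P‖) (fun _ _ => by positivity)
    (by rw [Finset.sum_const, hcard, nsmul_eq_mul, mul_inv_cancel₀ hφR.ne']) (fun _ _ => norm_nonneg _)
  rw [← Finset.mul_sum, Real.finsetProd_rpow _ _ (fun _ _ => norm_nonneg _)] at hag
  have h5 : (p : ℝ) ^ k ≤ (∏ μ ∈ primitiveRoots n ℂ, ‖Polynomial.aeval μ P‖) ^ ((Nat.totient n : ℝ)⁻¹) := by
    have h6 : (p : ℝ) ^ k = (((p : ℝ) ^ k) ^ Nat.totient n) ^ ((Nat.totient n : ℝ)⁻¹) := by
      rw [← Real.rpow_natCast ((p : ℝ) ^ k) (Nat.totient n), ← Real.rpow_mul (by positivity),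
        mul_inv_cancel₀ hφR.ne', Real.rpow_one]
    rw [h6]
    exact Real.rpow_le_rpow (by positivity) hprod2 (by positivity)
  have h7 := h5.trans hag
  rw [inv_mul_eq_div, le_div_iff₀ hφR] at h7
  exact h7

end Pool.Agent.BR
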