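import Pool.Agent.helper24.BR.SpecA
import Pool.Agent.helper59.FI.Base

/-!
# Row bp:THB (MP_baa4d7_al): `TH` by blocks
-/

set_option autoImplicit false

namespace Pool.Agent.BR

open Pool.Agent.helper58.DC Pool.Agent.DI Pool.Agent.GR Pool.Agent.OB Pool.Agent.DR Pool.Agent.FI Pool.Agent.FI3 Pool.Agent.FI4 Pool.Agent.LE

theorem THB_Bl {G : Type} [Group G] {M : Ideal (integralClosure ℤ ℂ)} {K : Subgroup G} {η η' : G → ℂ} (h : SB M K η η') :
    Bl M K η = Bl M K η' := by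
  ext ψ
  constructor
  · rintro ⟨h1, h2⟩
    exact ⟨h1, h2.trans h⟩
  · rintro ⟨h1, h2⟩
    exact ⟨h1, h2.trans h.symm⟩

/-- the class function of the block and conjugation -/
theorem THB_bl {G : Type} [Group G] [Finite G] {M : Ideal (integralClosure ℤ ℂ)} {θ : G → ℂ} {t : G} {K : Subgroup G} {ψ : G → ℂ} :
    ψ ∈ Bl M K (cjF t⁻¹ θ) ↔ funMap (MulAut.conj t) ψ ∈ Bl M (cj t K) θ := by
  have e1 : funMap (MulAut.conj t) (cjF t⁻¹ θ) = θ := by
    show funMap (MulAut.conj t) (funMap (MulAut.conj t⁻¹) θ) = θ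
    rw [← funMap_mul, mul_inv_cancel, funMap_one']
  have e2 : funMap (MulAut.conj t⁻¹) (funMap (MulAut.conj t) ψ) = ψ := by
    rw [← funMap_mul, inv_mul_cancel, funMap_one']
  have e3 : cj t⁻¹ (cj t K) = K := cj_inv_cj t K
  constructor
  · rintro ⟨h1, h2⟩
    refine ⟨IrrOn_funMap h1 t, ?_⟩
    have h3 := SB_conj h2 t
    rwa [e1] at h3
  · rintro ⟨h1, h2⟩
    have h3 := IrrOn_funMap h1 t⁻¹
    have h4 := SB_conj h2 t⁻¹
    rw [e2, e3] at h3 h4
    exact ⟨h3, h4⟩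

theorem THB_eS {G : Type} [Group G] [Finite G] {M : Ideal (integralClosure ℤ ℂ)} {θ : G → ℂ} {t : G} {K : Subgroup G} (x : G) :
    eS (cj t K) (Bl M (cj t K) θ) (t * x * t⁻¹) = eS K (Bl M K (cjF t⁻¹ θ)) x := by
  unfold eS
  rw [card_cj]
  congr 1
  symm
  refine finsum_mem_eq_of_bijOn (funMap (MulAut.conj t)) ⟨fun ψ hψ => THB_bl.1 hψ, ?_, ?_⟩ fun ψ hψ => ?_
  · intro ψ _ ψ' _ h
    have h1 := congrArg (funMap (MulAut.conj t⁻¹)) h
    rw [← funMap_mul, ← funMap_mul, inv_mul_cancel, funMap_one', funMap_one'] at h1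
    exact h1
  · intro ψ hψ
    refine ⟨funMap (MulAut.conj t⁻¹) ψ, ?_, ?_⟩
    · refine THB_bl.2 ?_
      rwa [← funMap_mul, mul_inv_cancel, funMap_one']
    · rw [← funMap_mul, mul_inv_cancel, funMap_one']
  · rw [funMap_apply, funMap_apply]
    have a1 : t⁻¹ * 1 * t = 1 := by group
    have a2 : t⁻¹ * (t * x * t⁻¹)⁻¹ * t = x⁻¹ := by group
    rw [a1, a2]

theorem THB_tr27 (hEVF : EVF_stmt) {G : Type} [Group G] [Finite G] {M : Ideal (integralClosure ℤ ℂ)} {θ ψ : G → ℂ}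
    (hψ : ψ ∈ IrrOn (⊤ : Subgroup G)) (t u g : G) :
    ev ψ (eS (Cz (⊤ : Subgroup G) (t * u * t⁻¹)) (Bl M (Cz (⊤ : Subgroup G) (t * u * t⁻¹)) θ)) (t * g * t⁻¹) =
      ev ψ (eS (Cz (⊤ : Subgroup G) u) (Bl M (Cz (⊤ : Subgroup G) u) (cjF t⁻¹ θ))) g := by
  have e1 : Cz (⊤ : Subgroup G) (t * u * t⁻¹) = cj t (Cz (⊤ : Subgroup G) u) := by
    rw [← cj_Cz, cj_top]
  rw [(hEVF G ψ g).2.2.2.2 ⊤ hψ t (Subgroup.mem_top t), e1]
  congr 1
  funext x
  exact THB_eS x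

theorem THB (hREP : REP_stmt) (hEXB : EXB_stmt) (hEVF : EVF_stmt) : THB_stmt := by
  classical
  intro p M hS G _ _ D x θ χ lo l ψ hψ u w hw
  set K := Cz (⊤ : Subgroup G) u with hK
  obtain ⟨rfin, rrep, riff, -, -⟩ := hREP p M hS G K
  let _ : Fintype G := Fintype.ofFinite G
  let X : G → ℂ := fun t => ci M D θ (t * u * t⁻¹) / Nat.card K * lx D l (t * u * t⁻¹)
  let et : G → G → ℂ := fun t => eS K (Bl M K (cjF t⁻¹ θ))
  have hX0 : ∀ t : G, t * u * t⁻¹ ∉ D → X t = 0 := by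
    intro t ht
    show ci M D θ (t * u * t⁻¹) / Nat.card K * lx D l (t * u * t⁻¹) = 0
    unfold lx
    rw [dif_neg ht, mul_zero]
  -- the characters
  have hpD : IsPGroup p D := lo.rt.dfa.pgrp
  have key : ∀ t : G, t * u * t⁻¹ ∈ D → ∃ ψ' ∈ IrrOn K, SB M K (cjF t⁻¹ θ) ψ' := by
    intro t ht
    have huD : u ∈ cj t⁻¹ D := by
      rw [mem_cj, inv_inv]
      exact ht
    have hcom : ∀ a ∈ cj t⁻¹ D, ∀ b ∈ cj t⁻¹ D, a * b = b * a := by
      intro a ha b hb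
      rw [mem_cj, inv_inv] at ha hb
      have h1 := lo.rt.com _ ha _ hb
      calc a * b = t⁻¹ * ((t * a * t⁻¹) * (t * b * t⁻¹)) * t := by group
        _ = t⁻¹ * ((t * b * t⁻¹) * (t * a * t⁻¹)) * t := by rw [h1]
        _ = b * a := by group
    have hle : cj t⁻¹ D ≤ K := by
      intro a ha
      rw [hK, mem_Cz]
      exact ⟨Subgroup.mem_top a, hcom u huD a ha⟩
    have hcz : cz (cj t⁻¹ D) ≤ K := by
      intro a ha
      rw [hK, mem_Cz]
      exact ⟨Subgroup.mem_top a, Subgroup.mem_centralizer_iff.1 ha u huD⟩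
    have hφ : cjF t⁻¹ θ ∈ IrrOn (K ⊓ cz (cj t⁻¹ D)) := by
      rw [inf_eq_right.2 hcz, cj_cz]
      exact IrrOn_funMap lo.rt.th t⁻¹
    exact hEXB p M hS G K (cj t⁻¹ D) (cj_pgroup t⁻¹ hpD) hle _ hφ
  have hmem : ∀ t : G, t * u * t⁻¹ ∈ D → et t ∈ BB M K := by
    intro t ht
    obtain ⟨ψ', h1, h2⟩ := key t ht
    refine ⟨ψ', h1, ?_⟩
    show eS K (Bl M K ψ') = eS K (Bl M K (cjF t⁻¹ θ))
    rw [THB_Bl h2]
  have hiff : ∀ t : G, t * u * t⁻¹ ∈ D → ∀ e ∈ BB M K, (SB M K (rep M K e) (cjF t⁻¹ θ) ↔ et t = e) := by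
    intro t ht e he
    obtain ⟨ψ', h1, h2⟩ := key t ht
    obtain ⟨h3, h4⟩ := rrep e he
    have h5 : et t = eS K (Bl M K ψ') := by
      show eS K (Bl M K (cjF t⁻¹ θ)) = eS K (Bl M K ψ')
      rw [THB_Bl h2]
    constructor
    · intro h
      rw [h5, ← h4]
      exact ((riff _ h3 _ h1).2 (h.trans h2)).symm
    · intro h
      have h6 : eS K (Bl M K (rep M K e)) = eS K (Bl M K ψ') := by
        rw [h4, ← h5, h]
      exact ((riff _ h3 _ h1).1 h6).trans h2.symm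
  -- the left side
  have hL : TH M D θ l ψ u w = ∑ t : G, X t * ev ψ (et t) (u * w) := by
    have h1 : TH M D θ l ψ u w = ∑ᶠ t : {t : G // t * u * t⁻¹ ∈ D}, X t * ev ψ (et t) (u * w) := by
      unfold TH
      refine finsum_congr fun t => ?_
      rw [THB_tr27 hEVF hψ]
      have h2 : lx D l (t * u * (t : G)⁻¹) = (l ⟨t * u * (t : G)⁻¹, t.2⟩ : ℂ) := by
        unfold lx
        rw [dif_pos t.2]
      show _ = ci M D θ (t * u * (t : G)⁻¹) / Nat.card K * lx D l (t * u * (t : G)⁻¹) * _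
      rw [h2]
    rw [h1, finsum_subtype_eq_finsum_cond (f := fun t : G => X t * ev ψ (et t) (u * w)) (fun t => t * u * t⁻¹ ∈ D),
      ← finsum_eq_sum_of_fintype]
    refine finsum_congr fun t => ?_
    rw [finsum_eq_if]
    split_ifs with h
    · rfl
    · rw [hX0 t h, zero_mul]
  -- the right side
  have hLam : ∀ e ∈ BB M K, Lam M D θ l u (rep M K e) = ∑ t : G, if et t = e then X t else 0 := by
    intro e he
    unfold Lam
    rw [← finsum_eq_sum_of_fintype]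
    refine finsum_congr fun t => ?_
    rw [finsum_eq_if]
    by_cases ht : t * u * t⁻¹ ∈ D
    · by_cases h : SB M K (rep M K e) (cjF t⁻¹ θ)
      · have h' : t ∈ {t : G | SB M (Cz (⊤ : Subgroup G) u) (rep M K e) (cjF t⁻¹ θ)} := h
        rw [if_pos h', if_pos ((hiff t ht e he).1 h)]
      · have h' : t ∉ {t : G | SB M (Cz (⊤ : Subgroup G) u) (rep M K e) (cjF t⁻¹ θ)} := h
        rw [if_neg h', if_neg (fun h1 => h ((hiff t ht e he).2 h1))]
    · have h1 : ci M D θ (t * u * t⁻¹) / Nat.card (Cz (⊤ : Subgroup G) u) * lx D l (t * u * t⁻¹) = 0 := hX0 t ht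
      rw [h1, hX0 t ht]
      simp
  rw [hL, finsum_mem_eq_finite_toFinset_sum _ rfin]
  have h1 : ∀ e ∈ rfin.toFinset, Lam M D θ l u (rep M K e) * ev ψ e (u * w) =
      ∑ t : G, if et t = e then X t * ev ψ (et t) (u * w) else 0 := by
    intro e he
    rw [hLam e (rfin.mem_toFinset.1 he), Finset.sum_mul]
    refine Finset.sum_congr rfl fun t _ => ?_
    by_cases h : et t = e
    · rw [if_pos h, if_pos h, h]
    · rw [if_neg h, if_neg h, zero_mul]
  rw [Finset.sum_congr rfl h1, Finset.sum_comm]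
  refine Finset.sum_congr rfl fun t _ => ?_
  by_cases ht : t * u * t⁻¹ ∈ D
  · rw [Finset.sum_ite_eq, if_pos (rfin.mem_toFinset.2 (hmem t ht))]
  · rw [hX0 t ht, zero_mul]
    symm
    refine Finset.sum_eq_zero fun e _ => ?_
    split_ifs <;> rfl

end Pool.Agent.BR
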